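import Pool.Agent.Lib.MP_28303a_al.NT.Lab
import Pool.Agent.Lib.MP_28303a_al.NT5.Tri

/-! # The triangle of the multiplication by `t` -/

set_option autoImplicit false
set_option linter.unusedSectionVars false
set_option linter.unusedVariables false

namespace Pool.Agent.NegK.NT

universe u

open CategoryTheory Limits Pretriangulated

namespace H53

variable {k : Type u} [Ring k] {Γ : Type u} [Group Γ] {B : Type u} [MulAction Γ B] {P : Pre Γ B}

/-- The projection to the value at `0`. -/
noncomputable def pr0 (A : Loc (Polynomial k) P) : Loc.ro A ⟶ (Loc.bo A : Loc k P) :=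
  Loc.par (A := Loc.ro A) (A' := Loc.bo A) (fun i => if i.2 = 0 then some i.1 else none) (by
    rintro ⟨i, n⟩ j h
    split_ifs at h
    cases h
    exact P.refl _)

/-- The section of the projection. -/
noncomputable def in0 (A : Loc (Polynomial k) P) : (Loc.bo A : Loc k P) ⟶ Loc.ro A :=
  Loc.par (A := Loc.bo A) (A' := Loc.ro A) (fun i => some (i, 0)) (by
    rintro i j h
    cases h
    exact P.refl _)

/-- The retraction of the multiplication by `t`. -/
noncomputable def ret (A : Loc (Polynomial k) P) : Loc.ro A ⟶ Loc.ro A :=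
  Loc.par (A := Loc.ro A) (A' := Loc.ro A)
    (fun i => if i.2 = 0 then none else some (i.1, i.2 - 1)) (by
    rintro ⟨i, n⟩ j h
    split_ifs at h
    cases h
    exact P.refl _)

theorem pr0_zero (A : Loc (Polynomial k) P) (i : A.ι) :
    Loc.lin (A := Loc.ro A) (A' := (Loc.bo A : Loc k P)) (pr0 A) (Finsupp.single (i, 0) 1) =
      Finsupp.single i 1 :=
  Loc.par_some (A := Loc.ro A) (A' := Loc.bo A) _ _ (by simp)

theorem pr0_succ (A : Loc (Polynomial k) P) (i : A.ι) (n : ℕ) :
    Loc.lin (A := Loc.ro A) (A' := (Loc.bo A : Loc k P)) (pr0 A) (Finsupp.single (i, n + 1) 1) =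
      0 :=
  Loc.par_none (A := Loc.ro A) (A' := Loc.bo A) _ _ (by simp)

theorem in0_single (A : Loc (Polynomial k) P) (i : A.ι) :
    Loc.lin (A := (Loc.bo A : Loc k P)) (A' := Loc.ro A) (in0 A) (Finsupp.single i 1) =
      Finsupp.single (i, 0) 1 :=
  Loc.par_some (A := Loc.bo A) (A' := Loc.ro A) _ _ rfl

theorem ret_zero (A : Loc (Polynomial k) P) (i : A.ι) :
    Loc.lin (A := Loc.ro A) (A' := Loc.ro A) (ret A) (Finsupp.single (i, 0) 1) = 0 :=
  Loc.par_none (A := Loc.ro A) (A' := Loc.ro A) _ _ (by simp)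

theorem ret_succ (A : Loc (Polynomial k) P) (i : A.ι) (n : ℕ) :
    Loc.lin (A := Loc.ro A) (A' := Loc.ro A) (ret A) (Finsupp.single (i, n + 1) 1) =
      Finsupp.single (i, n) 1 :=
  Loc.par_some (A := Loc.ro A) (A' := Loc.ro A) _ _ (by simp)

/-- Multiplication by `t` on the restriction. -/
noncomputable def tA (A : Loc (Polynomial k) P) : Loc.ro A ⟶ Loc.ro A :=
  Loc.rm ((Loc.cen (Polynomial.X : Polynomial k) xcen).app A)

/-- Multiplication by `t` on the restriction. -/
theorem rm_cen (A : Loc (Polynomial k) P) (i : A.ι) (n : ℕ) :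
    Loc.lin (tA A) (Finsupp.single (i, n) 1) = Finsupp.single (i, n + 1) 1 := by
  have h1 : Loc.lin ((Loc.cen (Polynomial.X : Polynomial k) xcen).app A)
      (Finsupp.single i 1) = MonoidAlgebra.single (1 : Γ) (Polynomial.X : Polynomial k) •
        Finsupp.single i (1 : MonoidAlgebra (Polynomial k) Γ) := rfl
  have h2 := Loc.rm_single ((Loc.cen (Polynomial.X : Polynomial k) xcen).app A) i n
  rw [h1, smul_smul, Loc.tp, MonoidAlgebra.single_mul_single, one_mul, ← pow_succ] at h2
  exact h2.trans (Loc.rs_tp _ _ _)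

theorem pr0_rs (A : Loc (Polynomial k) P) (x : A.F) :
    Loc.lin (A := Loc.ro A) (A' := (Loc.bo A : Loc k P)) (pr0 A) (Loc.rs A.ι x) =
      Loc.mf Polynomial.constantCoeff A.ι x := by
  revert x
  refine Loc.ind_poly ?_ ?_ ?_
  · rw [map_zero, map_zero, map_zero]
  · intro x y hx hy
    rw [map_add, map_add, map_add, hx, hy]
  · intro i g n c
    rw [Loc.rs_single, Loc.mf_single, MonoidAlgebra.mapRingHom_single]
    have h1 : Finsupp.single (i, n) (MonoidAlgebra.single g c : MonoidAlgebra k Γ) =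
        (MonoidAlgebra.single g c : MonoidAlgebra k Γ) • Finsupp.single (i, n) 1 := by
      rw [Finsupp.smul_single, smul_eq_mul, mul_one]
    rw [h1, map_smul]
    cases n with
    | zero =>
      rw [pr0_zero, Finsupp.smul_single, smul_eq_mul, mul_one]
      simp
    | succ n =>
      rw [pr0_succ, smul_zero]
      simp

theorem pr0_nat {A A' : Loc (Polynomial k) P} (f : A ⟶ A') :
    Loc.rm f ≫ pr0 A' = pr0 A ≫ Loc.bm Polynomial.constantCoeff f := by
  refine Loc.ext_basis (A := Loc.ro A) (A' := Loc.bo A') ?_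
  rintro ⟨i, n⟩
  rw [← Loc.rs_tp A.ι i n]
  rw [Loc.lin_comp, Loc.lin_comp, LinearMap.comp_apply, LinearMap.comp_apply, Loc.rm_rs, pr0_rs,
    pr0_rs, Loc.bm_mf]

theorem ids1 (A : Loc (Polynomial k) P) : tA A ≫ pr0 A = 0 := by
  refine Loc.ext_basis (A := Loc.ro A) (A' := Loc.bo A) ?_
  rintro ⟨i, n⟩
  rw [Loc.lin_comp, LinearMap.comp_apply]
  exact (congrArg _ (rm_cen A i n)).trans (pr0_succ A i n)

theorem ids2 (A : Loc (Polynomial k) P) : tA A ≫ ret A = 𝟙 (Loc.ro A) := by
  refine Loc.ext_basis (A := Loc.ro A) (A' := Loc.ro A) ?_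
  rintro ⟨i, n⟩
  rw [Loc.lin_comp, LinearMap.comp_apply]
  exact (congrArg _ (rm_cen A i n)).trans (ret_succ A i n)

theorem ids3 (A : Loc (Polynomial k) P) : in0 A ≫ pr0 A = 𝟙 (Loc.bo A : Loc k P) := by
  refine Loc.ext_basis (A := Loc.bo A) (A' := Loc.bo A) fun i => ?_
  rw [Loc.lin_comp, LinearMap.comp_apply]
  exact (congrArg _ (in0_single A i)).trans (pr0_zero A i)

theorem ids4 (A : Loc (Polynomial k) P) : ret A ≫ tA A + pr0 A ≫ in0 A = 𝟙 (Loc.ro A) := by
  refine Loc.ext_basis (A := Loc.ro A) (A' := Loc.ro A) ?_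
  rintro ⟨i, n⟩
  rw [Loc.lin_add, LinearMap.add_apply, Loc.lin_comp, Loc.lin_comp, LinearMap.comp_apply,
    LinearMap.comp_apply]
  cases n with
  | zero =>
    refine (congrArg₂ (· + ·) ((congrArg _ (ret_zero A i)).trans (map_zero _))
      ((congrArg _ (pr0_zero A i)).trans (in0_single A i))).trans ?_
    rw [zero_add]
    rfl
  | succ n =>
    refine (congrArg₂ (· + ·) ((congrArg _ (ret_succ A i n)).trans (rm_cen A i n))
      ((congrArg _ (pr0_succ A i n)).trans (map_zero _))).trans ?_
    rw [add_zero]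
    rfl

/-- The short exact sequence of the multiplication by `t`. -/
noncomputable def keyS (E : CochainComplex (Loc (Polynomial k) P) ℤ) :
    ShortComplex (CochainComplex (Loc k P) ℤ) where
  X₁ := ((Loc.res (k := k) (P := P)).mapHomologicalComplex (ComplexShape.up ℤ)).obj E
  X₂ := ((Loc.res (k := k) (P := P)).mapHomologicalComplex (ComplexShape.up ℤ)).obj E
  X₃ := ((Loc.bc (P := P) (Polynomial.constantCoeff : Polynomial k →+* k)).mapHomologicalComplex
    (ComplexShape.up ℤ)).obj E
  f := ((Loc.res (k := k) (P := P)).mapHomologicalComplex (ComplexShape.up ℤ)).map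
    (cenC Polynomial.X xcen E)
  g := { f := fun n => pr0 (E.X n)
         comm' := fun i j _ => (pr0_nat (E.d i j)).symm }
  zero := HomologicalComplex.hom_ext _ _ fun n => ids1 (E.X n)

/-- The splittings. -/
noncomputable def keySp (E : CochainComplex (Loc (Polynomial k) P) ℤ) (n : ℤ) :
    ((keyS E).map (HomologicalComplex.eval (Loc k P) (ComplexShape.up ℤ) n)).Splitting where
  r := ret (E.X n)
  s := in0 (E.X n)
  f_r := ids2 (E.X n)
  s_g := ids3 (E.X n)
  id := ids4 (E.X n)

end H53

/-- KEY: the triangle of the multiplication by `t`. -/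
theorem key (k : Type u) [Ring k] {Γ : Type u} [Group Γ] {B : Type u} [MulAction Γ B]
    (P : Pre Γ B) : KEY k P := by
  intro X
  obtain ⟨w, hw⟩ := NT5.split_triangle (H53.keyS X.as) (H53.keySp X.as)
  exact ⟨_, w, hw⟩

namespace H53

variable {k : Type u} [Ring k] {Γ : Type u} [Group Γ] {B : Type u} [MulAction Γ B] {P : Pre Γ B}

theorem bm_cc {A A' : Loc k P} (f : A ⟶ A') :
    Loc.bm (Polynomial.constantCoeff : Polynomial k →+* k)
      (Loc.bm (Polynomial.C : k →+* Polynomial k) f) = f := by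
  refine Loc.ext_basis (A := A) (A' := A') fun i => ?_
  have h1 : Loc.mf (Polynomial.constantCoeff : Polynomial k →+* k) A.ι
      (Finsupp.single i (1 : MonoidAlgebra (Polynomial k) Γ)) = Finsupp.single i 1 := by
    rw [Loc.mf_single, map_one]
  have h2 : Loc.mf (Polynomial.C : k →+* Polynomial k) A.ι
      (Finsupp.single i (1 : MonoidAlgebra k Γ)) = Finsupp.single i 1 := by
    rw [Loc.mf_single, map_one]
  have h3 := Loc.bm_mf (Polynomial.constantCoeff : Polynomial k →+* k)
    (Loc.bm (Polynomial.C : k →+* Polynomial k) f) (Finsupp.single i 1)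
  have h4 := Loc.bm_mf (Polynomial.C : k →+* Polynomial k) f (Finsupp.single i 1)
  refine (congrArg _ h1).symm.trans (h3.trans ?_)
  refine (congrArg _ ((congrArg _ h2).symm.trans h4)).trans ?_
  ext j g
  rw [Loc.coeff_mf, Loc.coeff_mf]
  exact Polynomial.coeff_C_zero

/-- The value at `0` of the extension. -/
theorem ev0_ext (X : KK k P) : Nonempty ((ev0 k P).obj ((ext k P).obj X) ≅ X) := by
  refine ⟨(HomotopyCategory.quotient (Loc k P) (ComplexShape.up ℤ)).mapIso
    (HomologicalComplex.Hom.isoOfComponents (fun n => Iso.refl (X.as.X n)) ?_)⟩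
  intro i j _
  refine (Category.id_comp _).trans (Eq.trans ?_ (Category.comp_id _).symm)
  exact (bm_cc (X.as.d i j)).symm

end H53

/-- RESX: the restriction of the cone of `t` on an extended object. -/
theorem resx {k : Type u} [Ring k] {Γ : Type u} [Group Γ] {B : Type u} [MulAction Γ B]
    {P : Pre Γ B} (X : KK k P) {W : KK (Polynomial k) P} {g : (ext k P).obj X ⟶ W}
    {w : W ⟶ ((ext k P).obj X)⟦(1 : ℤ)⟧}
    (hT : Triangle.mk (tt.app ((ext k P).obj X)) g w ∈ distTriang (KK (Polynomial k) P)) :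
    Nonempty ((rst k P).obj W ≅ X) := by
  obtain ⟨f', w', hT'⟩ := key k P ((ext k P).obj X)
  obtain ⟨e⟩ := H53.ev0_ext X
  obtain ⟨i⟩ := NT5.cone_iso (X := (rst k P).obj ((ext k P).obj X))
    (Y := (rst k P).obj ((ext k P).obj X)) (Z := (rst k P).obj W)
    (f := (rst k P).map (tt.app ((ext k P).obj X))) (g := (rst k P).map g)
    ((rst k P).map_distinguished _ hT) hT' (𝟙 _) (𝟙 _)
    ((Category.comp_id _).trans (Category.id_comp _).symm)
  exact ⟨i ≪≫ e⟩

end Pool.Agent.NegK.NT
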